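import Pool.Agent.Lib_MP_42b9e0_lc.Main

/-!
# A model of ZFA in which IDFBI holds and IWDI fails

There is a model `M` of ZFA (set theory with atoms, without choice) in which every infinite set is
dyadically filterbase infinite, while some infinite set is not weakly Dedekind-infinite.

The axioms of ZFA are in `Pool/Agent/Lib_FM/ZFA.lean`, the set-theoretic vocabulary in
`Pool/Agent/Lib_FM/Vocab.lean` and the notions of the problem in
`Pool/Agent/Lib_MP_42b9e0_lc/Defs.lean`; all of them are first-order notions of the structure.

The model is a permutation model: the atoms are the finite subsets `a` of `ℕ`, the group consists of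
the finitary permutations of the atoms, and a support is a pair `(F, n)` of a finite set `F` of atoms
(fixed pointwise) and a number `n` (the sets `{a | i ∈ a}`, `i < n`, are preserved).
-/

set_option autoImplicit false

namespace Pool.Agent.Results.MP_42b9e0_lc.ZFAModel

open Pool.Agent.FM

theorem result : ∃ (M : Type 1) (_ : AtomStr M), ZFA M ∧
    ∃ w : M, IsOmega w ∧ IDFBI w ∧ ¬ IWDI w := main

end Pool.Agent.Results.MP_42b9e0_lc.ZFAModel
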